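import Pool.Agent.H449Z.ERW.Det

set_option autoImplicit false

open MeasureTheory ProbabilityTheory Filter Topology
open scoped ENNReal unitInterval

namespace Pool.Agent.H449Z.ERW

section blocks

variable {S : Type} [MeasurableSpace S]

def blockSet (T G : Set S) (J : ℕ) : Set (Fin (2 * J) → S) :=
  ⋃ j ∈ Finset.univ.filter (fun j : Fin (2 * J) => J ≤ (j:ℕ)),
    Set.pi (Finset.univ : Finset (Fin (2 * J))) (fun k => if k = j then T else G)

lemma blockSet_meas {T G : Set S} (hT : MeasurableSet T) (hG : MeasurableSet G) (J : ℕ) :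
    MeasurableSet (blockSet T G J) := by
  refine Finset.measurableSet_biUnion _ fun j _ => ?_
  refine MeasurableSet.pi (Finset.countable_toSet _) fun k _ => ?_
  split_ifs
  · exact hT
  · exact hG

lemma blockSet_prob (η : Measure S) [IsProbabilityMeasure η] {T G : Set S} (hT : MeasurableSet T)
    (hG : MeasurableSet G) (hd : Disjoint T G) (J : ℕ) (hJ : 0 < J) (p : ℝ) (hp0 : 0 ≤ p)
    (hp : p ≤ η.real T) (hq : 1 - 1 / (4 * (J:ℝ)) ≤ η.real G) :
    J * p / 2 ≤ (Measure.infinitePi (fun _ : Fin (2 * J) => η)).real (blockSet T G J) := by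
  have hJr : (1:ℝ) ≤ J := by exact_mod_cast hJ
  have hm : ∀ j : Fin (2 * J), ∀ k : Fin (2 * J), MeasurableSet (if k = j then T else G) := by
    intro j k
    split_ifs
    · exact hT
    · exact hG
  unfold blockSet
  rw [measureReal_biUnion_finset (h := fun _ _ => measure_ne_top _ _)]
  · have h1 : ∀ j ∈ Finset.univ.filter (fun j : Fin (2 * J) => J ≤ (j:ℕ)), p / 2 ≤
        (Measure.infinitePi (fun _ : Fin (2 * J) => η)).real
          (Set.pi (Finset.univ : Finset (Fin (2 * J))) (fun k => if k = j then T else G)) := by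
      intro j _
      rw [Measure.real, Measure.infinitePi_pi _ (fun k _ => hm j k), ENNReal.toReal_prod,
        ← Finset.mul_prod_erase _ _ (Finset.mem_univ j), if_pos rfl]
      have h2 : ∏ x ∈ Finset.univ.erase j, (η (if x = j then T else G)).toReal =
          (η.real G) ^ (2 * J - 1) := by
        rw [Finset.prod_congr rfl (g := fun _ => η.real G), Finset.prod_const,
          Finset.card_erase_of_mem (Finset.mem_univ j)]
        · simp
        · intro x hx
          rw [if_neg (Finset.ne_of_mem_erase hx)]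
          rfl
      rw [h2]
      have h3 : (0:ℝ) ≤ 1 - 1 / (4 * (J:ℝ)) := by
        rw [sub_nonneg, div_le_one (by positivity)]; linarith
      have h4 : (1:ℝ) / 2 ≤ (1 - 1 / (4 * (J:ℝ))) ^ (2 * J - 1) := by
        have h5 := one_add_mul_le_pow (a := -(1 / (4 * (J:ℝ)))) (by linarith) (2 * J - 1)
        rw [← sub_eq_add_neg] at h5
        refine le_trans ?_ h5
        have h6 : ((2 * J - 1 : ℕ) : ℝ) ≤ 2 * J := by
          have : 2 * J - 1 ≤ 2 * J := by omega
          exact_mod_cast this
        have h7 : ((2 * J - 1 : ℕ) : ℝ) * (1 / (4 * (J:ℝ))) ≤ 2 * J * (1 / (4 * (J:ℝ))) := by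
          gcongr
        have h8 : 2 * (J:ℝ) * (1 / (4 * (J:ℝ))) = 1 / 2 := by field_simp; norm_num
        linarith
      have h9 : (1 - 1 / (4 * (J:ℝ))) ^ (2 * J - 1) ≤ (η.real G) ^ (2 * J - 1) := by gcongr
      have h10 : p * (1 / 2) ≤ η.real T * (η.real G) ^ (2 * J - 1) := by
        apply mul_le_mul hp (h4.trans h9) (by norm_num) measureReal_nonneg
      exact le_trans (by linarith) h10
    have h2 := Finset.card_nsmul_le_sum _ _ _ h1
    have h3 : (Finset.univ.filter (fun j : Fin (2 * J) => J ≤ (j:ℕ))).card = J := by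
      have a1 := Fin.card_filter_val_lt (n := 2 * J) (m := J)
      have a2 := Finset.card_filter_add_card_filter_not (s := (Finset.univ : Finset (Fin (2 * J))))
        (fun j : Fin (2 * J) => (j:ℕ) < J)
      simp only [not_lt, Finset.card_univ, Fintype.card_fin] at a2
      omega
    rw [h3, nsmul_eq_mul] at h2
    linarith
  · intro j _ j' _ hjj
    rw [Function.onFun, Set.disjoint_left]
    intro z h1 h2
    have a1 := h1 j (by simp)
    have a2 := h2 j (by simp)
    simp only [if_true, if_neg hjj] at a1 a2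
    exact Set.disjoint_left.1 hd a1 a2
  · intro j _
    exact MeasurableSet.pi (Finset.countable_toSet _) fun k _ => hm j k

open Classical in
lemma blocks_lln (η : Measure S) [IsProbabilityMeasure η] {T G : Set S} (hT : MeasurableSet T)
    (hG : MeasurableSet G) (hd : Disjoint T G) (J : ℕ) (hJ : 0 < J) (p : ℝ) (hp0 : 0 < p)
    (hp : p ≤ η.real T) (hq : 1 - 1 / (4 * (J:ℝ)) ≤ η.real G) (e : ℕ → ℤ)
    (he : Function.Injective e) :
    ∀ᵐ ξ ∂(Measure.infinitePi (fun _ : ℤ => η)), ∃ B0 : ℕ, ∀ B, B0 ≤ B →
      B * (J * p / 4) ≤ ((Finset.range B).filter (fun b => ∃ j, J ≤ j ∧ j < 2 * J ∧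
        ξ (e (2 * J * b + j)) ∈ T ∧
          ∀ k, k < 2 * J → k ≠ j → ξ (e (2 * J * b + k)) ∈ G)).card := by
  set f : ℕ × Fin (2 * J) → ℤ := fun q => e (2 * J * q.1 + q.2) with hf
  have hfi : Function.Injective f := by
    rintro ⟨b, k⟩ ⟨b', k'⟩ h
    have h1 : 2 * J * b + k = 2 * J * b' + k' := he h
    have h2 := congrArg (· / (2 * J)) h1
    have h3 := congrArg (· % (2 * J)) h1
    simp only [Nat.mul_add_mod, Nat.mod_eq_of_lt k.2, Nat.mod_eq_of_lt k'.2] at h3
    have h4 : 2 * J * b = 2 * J * b' := by omega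
    have h5 : b = b' := Nat.eq_of_mul_eq_mul_left (by omega) h4
    exact Prod.ext h5 (Fin.ext h3)
  set Q := Measure.infinitePi (fun _ : Fin (2 * J) => η) with hQ
  set Ψ : (ℤ → S) → ℕ → Fin (2 * J) → S := fun ξ b k => ξ (f (b, k)) with hΨ
  have hΨm : MeasurePreserving Ψ (Measure.infinitePi (fun _ : ℤ => η))
      (Measure.infinitePi (fun _ : ℕ => Q)) := by
    have a1 : MeasurePreserving (fun (ξ : ℤ → S) q => ξ (f q))
        (Measure.infinitePi (fun _ : ℤ => η))
        (Measure.infinitePi (fun _ : ℕ × Fin (2 * J) => η)) :=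
      ⟨by fun_prop, Measure.map_infinitePi_infinitePi_of_inj hfi⟩
    have a2 : MeasurePreserving (MeasurableEquiv.curry ℕ (Fin (2 * J)) S)
        (Measure.infinitePi (fun _ : ℕ × Fin (2 * J) => η))
        (Measure.infinitePi (fun _ : ℕ => Q)) :=
      ⟨MeasurableEquiv.measurable _, Measure.infinitePi_map_curry (fun _ _ => η)⟩
    exact a2.comp a1
  have hE := blockSet_meas hT hG J
  set φ : (Fin (2 * J) → S) → ℝ := (blockSet T G J).indicator (fun _ => 1) with hφ
  have hφm : Measurable φ := measurable_const.indicator hE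
  have hid : ∀ b : ℕ, IdentDistrib (fun z : ℕ → Fin (2 * J) → S => φ (z b)) φ
      (Measure.infinitePi (fun _ : ℕ => Q)) Q := by
    intro b
    have a1 : IdentDistrib (fun z : ℕ → Fin (2 * J) → S => z b) id
        (Measure.infinitePi (fun _ : ℕ => Q)) Q :=
      ⟨(measurable_pi_apply b).aemeasurable, aemeasurable_id, by
        rw [Measure.infinitePi_map_eval, Measure.map_id]⟩
    exact a1.comp hφm
  have hint : Integrable φ Q := (integrable_const (1:ℝ)).indicator hE
  have hlln := strong_law_ae_real (μ := Measure.infinitePi (fun _ : ℕ => Q))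
    (fun b z => φ (z b)) ((hid 0).integrable_iff.2 hint)
    (fun b b' hbb => (iIndepFun_infinitePi (P := fun _ : ℕ => Q) (X := fun _ => φ)
      (fun _ => hφm)).indepFun hbb)
    (fun b => (hid b).trans (hid 0).symm)
  have hmean : ∫ z, φ (z 0) ∂(Measure.infinitePi (fun _ : ℕ => Q)) = Q.real (blockSet T G J) := by
    rw [(hid 0).integral_eq, hφ]
    exact integral_indicator_one hE
  have hlow := blockSet_prob η hT hG hd J hJ p hp0.le hp hq
  have hJr : (0:ℝ) < J := by exact_mod_cast hJ
  have hlt : J * p / 4 < Q.real (blockSet T G J) := by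
    have : 0 < J * p := by positivity
    linarith
  filter_upwards [hΨm.quasiMeasurePreserving.ae hlln] with ξ hξ
  have hξ' : Tendsto (fun n : ℕ => (∑ i ∈ Finset.range n, φ (Ψ ξ i)) / n) atTop
      (𝓝 (Q.real (blockSet T G J))) := by
    rw [← hmean]
    exact hξ
  obtain ⟨B0, hB0⟩ := eventually_atTop.1 (hξ'.eventually (lt_mem_nhds hlt))
  refine ⟨B0 + 1, fun B hB => ?_⟩
  have h1 := hB0 B (by omega)
  have hB1 : (0:ℝ) < B := by
    have : 0 < B := by omega
    exact_mod_cast this
  rw [lt_div_iff₀ hB1] at h1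
  rw [mul_comm]
  refine h1.le.trans ?_
  rw [Finset.card_filter]
  push_cast
  refine Finset.sum_le_sum fun b _ => ?_
  by_cases hb : Ψ ξ b ∈ blockSet T G J
  · rw [hφ, Set.indicator_of_mem hb, if_pos]
    simp only [blockSet, Set.mem_iUnion, Finset.mem_filter, Finset.mem_univ, true_and] at hb
    obtain ⟨j, hj1, hj2⟩ := hb
    refine ⟨j, hj1, j.2, ?_, ?_⟩
    · have := hj2 j (by simp)
      simp only [if_true] at this
      exact this
    · intro k hk hkj
      have := hj2 ⟨k, hk⟩ (by simp)
      simp only at this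
      rw [if_neg (fun h => hkj (congrArg Fin.val h))] at this
      exact this
  · rw [hφ, Set.indicator_of_notMem hb]
    split_ifs <;> norm_num

end blocks

/-- law of a sequence of independent uniform coins -/
noncomputable def coin : Measure (ℕ → I) := Measure.infinitePi (fun _ : ℕ => (volume : Measure I))

instance : IsProbabilityMeasure coin := by unfold coin; infer_instance

noncomputable def hd (u : I) : ℝ := if (u:ℝ) < 1 / 2 then 1 else 0

lemma hd_meas : Measurable hd :=
  Measurable.ite (measurableSet_lt measurable_subtype_coe measurable_const) measurable_const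
    measurable_const

lemma vol_lt (c : ℝ) (h0 : 0 ≤ c) (h1 : c ≤ 1) :
    (volume : Measure I) {u : I | (u:ℝ) < c} = ENNReal.ofReal c := by
  have : {u : I | (u:ℝ) < c} = Set.Iio (⟨c, h0, h1⟩ : I) := by
    ext u
    rfl
  rw [this, unitInterval.volume_Iio]

lemma hd_mean : ∫ u, hd u ∂(volume : Measure I) = 1 / 2 := by
  have h1 : hd = {u : I | (u:ℝ) < 1 / 2}.indicator (fun _ => 1) := by
    funext u
    unfold hd
    by_cases h : (u:ℝ) < 1 / 2
    · rw [if_pos h, Set.indicator_of_mem (by exact h)]
    · rw [if_neg h, Set.indicator_of_notMem (by exact h)]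
  rw [h1]
  have h2 := integral_indicator_one (μ := (volume : Measure I)) (s := {u : I | (u:ℝ) < 1 / 2})
    (measurableSet_lt measurable_subtype_coe measurable_const)
  refine Eq.trans h2 ?_
  rw [Measure.real, vol_lt _ (by norm_num) (by norm_num), ENNReal.toReal_ofReal (by norm_num)]

lemma hd_bd (u : I) : hd u ∈ Set.Icc (0:ℝ) 1 := by
  unfold hd
  split_ifs <;> norm_num

/-- number of heads among the first `m` coins -/
noncomputable def cnt (m : ℕ) (U : ℕ → I) : ℝ := ∑ n ∈ Finset.range m, hd (U n)

lemma cnt_meas (m : ℕ) : Measurable (cnt m) :=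
  Finset.measurable_sum _ fun n _ => hd_meas.comp (measurable_pi_apply n)

lemma cheb (m : ℕ) (g : ℝ) (hg : 0 < g) :
    coin.real {U | g ≤ |cnt m U - m / 2|} ≤ m / (4 * g ^ 2) := by
  set Y : ℕ → (ℕ → I) → ℝ := fun n U => hd (U n) with hY
  have hYm : ∀ n, Measurable (Y n) := fun n => hd_meas.comp (measurable_pi_apply n)
  have hL : ∀ n, MemLp (Y n) 2 coin := fun n =>
    memLp_of_bounded (a := 0) (b := 1) (Eventually.of_forall fun U => hd_bd _)
      (hYm n).aestronglyMeasurable 2
  have hind : iIndepFun Y coin :=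
    iIndepFun_infinitePi (P := fun _ : ℕ => (volume : Measure I)) (X := fun _ => hd)
      (fun _ => hd_meas)
  have hvar := IndepFun.variance_sum (μ := coin) (X := Y) (s := Finset.range m)
    (fun n _ => hL n) (fun n _ n' _ hnn => hind.indepFun hnn)
  have hsum : (∑ i ∈ Finset.range m, Y i) = cnt m := by
    funext U
    simp [cnt, hY]
  have hv : variance (cnt m) coin ≤ m / 4 := by
    rw [← hsum, hvar]
    have : ∀ n ∈ Finset.range m, variance (Y n) coin ≤ 1 / 4 := by
      intro n _
      have := variance_le_sq_of_bounded (μ := coin) (a := 0) (b := 1) (X := Y n)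
        (Eventually.of_forall fun U => hd_bd _) (hYm n).aemeasurable
      norm_num at this ⊢
      exact this
    have h2 := Finset.sum_le_card_nsmul _ _ _ this
    rw [Finset.card_range, nsmul_eq_mul] at h2
    linarith
  have hmean : ∫ U, cnt m U ∂coin = m / 2 := by
    unfold cnt
    rw [integral_finsetSum _ fun n _ => (hL n).integrable (by norm_num)]
    have : ∀ n ∈ Finset.range m, ∫ U, hd (U n) ∂coin = 1 / 2 := by
      intro n _
      rw [← hd_mean]
      have a1 := (measurePreserving_eval_infinitePi (fun _ : ℕ => (volume : Measure I)) n)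
      rw [← a1.map_eq, integral_map a1.measurable.aemeasurable hd_meas.aestronglyMeasurable]
      rfl
    rw [Finset.sum_congr rfl this]
    simp
    ring
  have hLs : MemLp (cnt m) 2 coin := by
    rw [← hsum]
    exact memLp_finsetSum' _ fun n _ => hL n
  have h1 := meas_ge_le_variance_div_sq hLs hg
  rw [hmean] at h1
  rw [Measure.real]
  refine (ENNReal.toReal_mono ENNReal.ofReal_ne_top h1).trans ?_
  rw [ENNReal.toReal_ofReal (div_nonneg (variance_nonneg _ _) (by positivity))]
  calc variance (cnt m) coin / g ^ 2 ≤ (m / 4) / g ^ 2 := by gcongr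
    _ = _ := by field_simp

end Pool.Agent.H449Z.ERW
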