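import Mathlib

set_option autoImplicit false

open MeasureTheory

namespace Pool.Agent.H449Z.ERW

/-- Number of visits of the path `p` to its position at time `j` strictly before time `j`. -/
def visits (p : ℕ → ℤ) (j : ℕ) : ℕ := ((Finset.range j).filter (fun m => p m = p j)).card

/-- Probability of the step from time `j` to time `j + 1` of the path `p` in the cookie environment
`w`; cookies are numbered from `0`, so `w x n` is used on the `(n + 1)`-st visit to `x`. -/
noncomputable def stepProb (w : ℤ → ℕ → ℝ) (p : ℕ → ℤ) (j : ℕ) : ℝ :=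
  if p (j + 1) = p j + 1 then w (p j) (visits p j)
  else if p (j + 1) = p j - 1 then 1 - w (p j) (visits p j) else 0

/-- `X` is the excited random walk started at `0` in the random cookie environment `env`: the joint
law of the environment and of `X 0, ..., X n` is the one given by the transition probabilities. -/
def IsERW {Ω : Type} [MeasurableSpace Ω] (μ : Measure Ω) (env : Ω → ℤ → ℕ → ℝ)
    (X : ℕ → Ω → ℤ) : Prop :=
  ∀ (n : ℕ) (p : ℕ → ℤ) (A : Set (ℤ → ℕ → ℝ)), MeasurableSet A →
    μ {w | env w ∈ A ∧ ∀ j, j ≤ n → X j w = p j} =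
      if p 0 = 0 then
        ∫⁻ w in {w | env w ∈ A}, ∏ j ∈ Finset.range n, ENNReal.ofReal (stepProb (env w) p j) ∂μ
      else 0

end Pool.Agent.H449Z.ERW
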