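import Pool.Agent.H449Z.ERW.Defs

set_option autoImplicit false

namespace Pool.Agent.H449Z.ERW

/-- position and numbers of departures of the walk in an arrow system -/
def st (a : ℤ → ℕ → Bool) : ℕ → ℤ × (ℤ → ℕ)
  | 0 => (0, fun _ => 0)
  | t + 1 => (if a (st a t).1 ((st a t).2 (st a t).1) then (st a t).1 + 1 else (st a t).1 - 1,
      Function.update (st a t).2 (st a t).1 ((st a t).2 (st a t).1 + 1))

def pos (a : ℤ → ℕ → Bool) (t : ℕ) : ℤ := (st a t).1
def V (a : ℤ → ℕ → Bool) (t : ℕ) (x : ℤ) : ℕ := (st a t).2 x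

lemma pos_zero (a : ℤ → ℕ → Bool) : pos a 0 = 0 := rfl
lemma V_zero (a : ℤ → ℕ → Bool) (x : ℤ) : V a 0 x = 0 := rfl
lemma pos_succ (a : ℤ → ℕ → Bool) (t : ℕ) : pos a (t + 1) =
    if a (pos a t) (V a t (pos a t)) then pos a t + 1 else pos a t - 1 := rfl
lemma V_succ (a : ℤ → ℕ → Bool) (t : ℕ) (x : ℤ) :
    V a (t + 1) x = if x = pos a t then V a t x + 1 else V a t x := by
  change Function.update (st a t).2 (st a t).1 ((st a t).2 (st a t).1 + 1) x = _
  by_cases h : x = pos a t
  · rw [if_pos h, h]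
    exact Function.update_self _ _ _
  · rw [if_neg h]
    exact Function.update_of_ne h _ _

lemma V_eq (a : ℤ → ℕ → Bool) (t : ℕ) (x : ℤ) :
    V a t x = ((Finset.range t).filter (fun m => pos a m = x)).card := by
  induction t with
  | zero => simp [V_zero]
  | succ t ih =>
    rw [V_succ, Finset.range_add_one, Finset.filter_insert]
    by_cases h : x = pos a t
    · rw [if_pos h, if_pos h.symm, Finset.card_insert_of_notMem (by simp), ih]
    · rw [if_neg h, if_neg (Ne.symm h), ih]

/-- number of right arrows among the first `m` -/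
def R (b : ℕ → Bool) (m : ℕ) : ℕ := ∑ n ∈ Finset.range m, if b n then 1 else 0
/-- number of left arrows among the first `m` -/
def L (b : ℕ → Bool) (m : ℕ) : ℕ := ∑ n ∈ Finset.range m, if b n then 0 else 1

lemma R_succ (b : ℕ → Bool) (m : ℕ) : R b (m + 1) = R b m + if b m then 1 else 0 :=
  Finset.sum_range_succ _ _
lemma L_succ (b : ℕ → Bool) (m : ℕ) : L b (m + 1) = L b m + if b m then 0 else 1 :=
  Finset.sum_range_succ _ _

lemma R_add_L (b : ℕ → Bool) (m : ℕ) : R b m + L b m = m := by
  induction m with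
  | zero => simp [R, L]
  | succ m ih =>
    rw [R_succ, L_succ]
    split_ifs <;> omega

lemma R_mono (b : ℕ → Bool) : Monotone (R b) :=
  monotone_nat_of_le_succ fun m => by rw [R_succ]; omega
lemma L_mono (b : ℕ → Bool) : Monotone (L b) :=
  monotone_nat_of_le_succ fun m => by rw [L_succ]; omega

lemma flow (a : ℤ → ℕ → Bool) (t : ℕ) (x : ℤ) :
    (R (a x) (V a t x) : ℤ) - L (a (x + 1)) (V a t (x + 1)) =
      (if x < pos a t then 1 else 0) - (if x < 0 then 1 else 0) := by
  induction t with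
  | zero =>
    rw [pos_zero, V_zero, V_zero]
    split_ifs <;> simp [R, L]
  | succ t ih =>
    rw [V_succ, V_succ, pos_succ]
    by_cases h1 : x = pos a t
    · have h2 : ¬ (x + 1 = pos a t) := by omega
      rw [if_pos h1, if_neg h2, R_succ, ← h1]
      rw [← h1] at ih
      by_cases h3 : a x (V a t x) = true
      · simp only [h3, if_true] at *
        push_cast
        simp only [lt_self_iff_false, if_false, lt_add_one, if_true] at *
        linarith
      · simp only [h3] at *
        have h4 : ¬ (x < x - 1) := by omega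
        simp only [lt_self_iff_false, if_false, h4, Bool.false_eq_true, add_zero] at *
        exact ih
    · by_cases h2 : x + 1 = pos a t
      · rw [if_neg h1, if_pos h2, L_succ, ← h2]
        rw [← h2] at ih
        by_cases h3 : a (x + 1) (V a t (x + 1)) = true
        · have h4 : x < x + 1 + 1 := by omega
          simp only [h3, if_true, h4, lt_add_one, add_zero] at *
          exact ih
        · have h4 : ¬ (x < x + 1 - 1) := by omega
          simp only [h3, h4, lt_add_one, if_true, if_false, Bool.false_eq_true] at *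
          push_cast
          linarith
      · rw [if_neg h1, if_neg h2, ih]
        congr 1
        by_cases h3 : a (pos a t) (V a t (pos a t)) = true
        · rw [if_pos h3]
          by_cases h4 : x < pos a t
          · rw [if_pos h4, if_pos (by omega)]
          · rw [if_neg h4, if_neg (by omega)]
        · rw [if_neg h3]
          by_cases h4 : x < pos a t
          · rw [if_pos h4, if_pos (by omega)]
          · rw [if_neg h4, if_neg (by omega)]

lemma flow' (a : ℤ → ℕ → Bool) (t : ℕ) (x : ℤ) (h0 : 0 ≤ x) (h1 : x < pos a t) :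
    R (a x) (V a t x) = L (a (x + 1)) (V a t (x + 1)) + 1 := by
  have := flow a t x
  rw [if_pos h1, if_neg (by omega)] at this
  omega

lemma sum_V (a : ℤ → ℕ → Bool) (t : ℕ) (F : Finset ℤ) : ∑ x ∈ F, V a t x ≤ t := by
  induction t with
  | zero => simp [V_zero]
  | succ t ih =>
    have : ∑ x ∈ F, V a (t + 1) x = ∑ x ∈ F, V a t x + ∑ x ∈ F, if x = pos a t then 1 else 0 := by
      rw [← Finset.sum_add_distrib]
      refine Finset.sum_congr rfl fun x _ => ?_
      rw [V_succ]
      split_ifs <;> rfl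
    rw [this, Finset.sum_ite_eq']
    split_ifs <;> omega

def Trap (K : ℕ) (b : ℕ → Bool) : Prop := ∀ n, n < K → b n = false

def Good (J h : ℕ) (b : ℕ → Bool) : Prop :=
  ∀ l, J ≤ l → l < 2 * J → R b ((2 * l + 1) * h) ≤ (l + 1) * h

lemma trap_L {K m : ℕ} {b : ℕ → Bool} (hb : Trap K b) (h : 1 ≤ R b m) : K ≤ L b m := by
  have h0 : R b K = 0 := Finset.sum_eq_zero fun n hn => by
    rw [hb n (Finset.mem_range.1 hn)]; simp
  have h1 : K ≤ m := by
    by_contra hc
    have := R_mono b (show m ≤ K by omega)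
    omega
  have h2 := L_mono b h1
  have h3 := R_add_L b K
  omega

lemma good_L {J h l m : ℕ} {b : ℕ → Bool} (hb : Good J h b) (h1 : J ≤ l) (h2 : l < 2 * J)
    (h3 : (l + 1) * h + 1 ≤ R b m) : l * h ≤ L b m := by
  have h4 := hb l h1 h2
  have h5 : (2 * l + 1) * h ≤ m := by
    by_contra hc
    have := R_mono b (show m ≤ (2 * l + 1) * h by omega)
    omega
  have h6 := L_mono b h5
  have h7 := R_add_L b ((2 * l + 1) * h)
  have h8 : (2 * l + 1) * h = (l + 1) * h + l * h := by ring
  omega

/-- the block number `b` contains a trap in its upper half, all other sites being good -/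
def Blk (a : ℤ → ℕ → Bool) (J h b : ℕ) : Prop :=
  ∃ j, J ≤ j ∧ j < 2 * J ∧ Trap (2 * J * h) (a ((2 * J * b + j : ℕ) : ℤ)) ∧
    ∀ k, k < 2 * J → k ≠ j → Good J h (a ((2 * J * b + k : ℕ) : ℤ))

lemma blk_time (a : ℤ → ℕ → Bool) (J h b t : ℕ) (hb : Blk a J h b)
    (ht : ((2 * J * (b + 1) : ℕ) : ℤ) ≤ pos a t) :
    J * (J * h) ≤ ∑ k ∈ Finset.range (2 * J), V a t ((2 * J * b + k : ℕ) : ℤ) := by
  obtain ⟨j, h1, h2, h3, h4⟩ := hb
  have hpos : ∀ k, k < 2 * J → ((2 * J * b + k : ℕ) : ℤ) < pos a t := by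
    intro k hk
    refine lt_of_lt_of_le ?_ ht
    have : 2 * J * b + k < 2 * J * (b + 1) := by nlinarith
    exact_mod_cast this
  have key : ∀ k, k ≤ J → (2 * J - k) * h ≤
      L (a ((2 * J * b + (j - k) : ℕ) : ℤ)) (V a t ((2 * J * b + (j - k) : ℕ) : ℤ)) := by
    intro k
    induction k with
    | zero =>
      intro _
      have := flow' a t _ (Int.natCast_nonneg _) (hpos j h2)
      exact trap_L h3 (by simp only [Nat.sub_zero]; omega)
    | succ k ih =>
      intro hk
      have e1 := ih (by omega)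
      have e2 := flow' a t _ (Int.natCast_nonneg _) (hpos (j - (k + 1)) (by omega))
      have e3 : ((2 * J * b + (j - (k + 1)) : ℕ) : ℤ) + 1 = ((2 * J * b + (j - k) : ℕ) : ℤ) := by
        have : j - k = j - (k + 1) + 1 := by omega
        rw [this]; push_cast; ring
      rw [e3] at e2
      apply good_L (h4 (j - (k + 1)) (by omega) (by omega)) (by omega) (by omega)
      have : 2 * J - (k + 1) + 1 = 2 * J - k := by omega
      rw [this]
      omega
  have h5 : ∀ k ∈ Finset.Ico (j - J) j, J * h ≤ V a t ((2 * J * b + k : ℕ) : ℤ) := by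
    intro k hk
    obtain ⟨a1, a2⟩ := Finset.mem_Ico.1 hk
    have e1 := key (j - k) (by omega)
    rw [show j - (j - k) = k by omega] at e1
    have e2 := R_add_L (a ((2 * J * b + k : ℕ) : ℤ)) (V a t ((2 * J * b + k : ℕ) : ℤ))
    have e3 : J * h ≤ (2 * J - (j - k)) * h := Nat.mul_le_mul_right _ (by omega)
    omega
  have h6 := Finset.card_nsmul_le_sum _ _ _ h5
  rw [Nat.card_Ico, show j - (j - J) = J by omega, smul_eq_mul] at h6
  refine h6.trans (Finset.sum_le_sum_of_subset ?_)
  intro k hk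
  have := Finset.mem_Ico.1 hk
  exact Finset.mem_range.2 (by omega)

open Classical in
lemma total_time (a : ℤ → ℕ → Bool) (J h B t : ℕ) (ht : ((2 * J * B : ℕ) : ℤ) ≤ pos a t) :
    J * (J * h) * ((Finset.range B).filter (fun b => Blk a J h b)).card ≤ t := by
  have h1 : ∀ B : ℕ, ∑ b ∈ Finset.range B, ∑ k ∈ Finset.range (2 * J),
      V a t ((2 * J * b + k : ℕ) : ℤ) = ∑ x ∈ Finset.range (2 * J * B), V a t (x : ℤ) := by
    intro B
    induction B with
    | zero => simp
    | succ B ih => rw [Finset.sum_range_succ, ih, mul_add, mul_one, Finset.sum_range_add]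
  have h2 : ∑ x ∈ Finset.range (2 * J * B), V a t (x : ℤ) ≤ t := by
    have := sum_V a t ((Finset.range (2 * J * B)).image (fun x : ℕ => (x : ℤ)))
    rwa [Finset.sum_image (fun x _ y _ hxy => by exact_mod_cast hxy)] at this
  refine le_trans ?_ h2
  rw [← h1, mul_comm, ← smul_eq_mul, ← Finset.sum_const]
  refine le_trans (Finset.sum_le_sum fun b hb => ?_)
    (Finset.sum_le_sum_of_subset (Finset.filter_subset _ _))
  obtain ⟨a1, a2⟩ := Finset.mem_filter.1 hb
  refine blk_time a J h b t a2 (le_trans ?_ ht)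
  have := Finset.mem_range.1 a1
  have : 2 * J * (b + 1) ≤ 2 * J * B := by gcongr; omega
  exact_mod_cast this

open Classical in
lemma pos_bound (a : ℤ → ℕ → Bool) (J h B0 : ℕ) (hJ : 0 < J) (c : ℝ) (hc : 0 ≤ c)
    (hB : ∀ B, B0 ≤ B → B * c ≤ ((Finset.range B).filter (fun b => Blk a J h b)).card) (t : ℕ) :
    (pos a t : ℝ) ≤ 2 * J * (B0 + 1) ∨ (pos a t : ℝ) * (J * h * c) ≤ 4 * t := by
  by_cases hp : pos a t ≤ ((2 * J * (B0 + 1) : ℕ) : ℤ)
  · left
    exact_mod_cast hp
  · right
    obtain ⟨m, hm⟩ := Int.eq_ofNat_of_zero_le (show 0 ≤ pos a t by omega)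
    have hm1 : 2 * J * (B0 + 1) ≤ m := by omega
    set B := m / (2 * J) with hBdef
    have hB1 : B0 + 1 ≤ B := by
      rw [hBdef, Nat.le_div_iff_mul_le (by omega)]
      nlinarith
    have hB2 : 2 * J * B ≤ m := Nat.mul_div_le _ _
    have hB3 : m < 2 * J * (B + 1) := by
      have := Nat.lt_mul_div_succ m (show 0 < 2 * J by omega)
      exact this
    have hB4 : m ≤ 4 * J * B := by nlinarith
    have h1 := total_time a J h B t (by omega)
    have h2 := hB B (by omega)
    have h3 : (J:ℝ) * (J * h) * ((Finset.range B).filter (fun b => Blk a J h b)).card ≤ t := by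
      exact_mod_cast h1
    have h4 : (m:ℝ) ≤ 4 * J * B := by exact_mod_cast hB4
    rw [hm]
    push_cast
    calc (m:ℝ) * (J * h * c) ≤ (4 * J * B) * (J * h * c) := by gcongr
      _ = 4 * (J * (J * h) * (B * c)) := by ring
      _ ≤ 4 * (J * (J * h) * ((Finset.range B).filter (fun b => Blk a J h b)).card) := by gcongr
      _ ≤ 4 * t := by gcongr

/-- the reflected arrow system -/
def refl (a : ℤ → ℕ → Bool) : ℤ → ℕ → Bool := fun x n => !(a (-x) n)

lemma refl_st (a : ℤ → ℕ → Bool) (t : ℕ) :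
    pos (refl a) t = - pos a t ∧ ∀ x, V (refl a) t x = V a t (-x) := by
  induction t with
  | zero => simp [pos_zero, V_zero]
  | succ t ih =>
    obtain ⟨h1, h2⟩ := ih
    constructor
    · rw [pos_succ, pos_succ, h1, h2]
      unfold refl
      simp only [neg_neg]
      by_cases h3 : a (pos a t) (V a t (pos a t)) = true
      · simp [h3]; ring
      · simp [h3]; ring
    · intro x
      rw [V_succ, V_succ, h1, h2]
      by_cases h3 : x = -pos a t
      · rw [if_pos h3, if_pos (by omega)]
      · rw [if_neg h3, if_neg (by omega)]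

open Filter Topology in
lemma tendsto_of_bounds (x : ℕ → ℝ)
    (h : ∀ i : ℕ, ∃ m : ℝ, ∀ t : ℕ, |x t| ≤ m ∨ |x t| * 2 ^ i ≤ 128 * t) :
    Tendsto (fun t : ℕ => x t / t) atTop (𝓝 0) := by
  rw [Metric.tendsto_atTop]
  intro ε hε
  obtain ⟨i, hi⟩ := pow_unbounded_of_one_lt (128 / ε) (by norm_num : (1:ℝ) < 2)
  obtain ⟨m, hm⟩ := h i
  obtain ⟨N, hN⟩ := exists_nat_gt (|m| / ε)
  refine ⟨N + 1, fun t ht => ?_⟩
  have ht0 : (0:ℝ) < t := by
    have : 0 < t := by omega
    exact_mod_cast this
  have ht1 : (N:ℝ) ≤ t := by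
    have : N ≤ t := by omega
    exact_mod_cast this
  rw [Real.dist_eq, sub_zero, abs_div, abs_of_pos ht0, div_lt_iff₀ ht0]
  rw [div_lt_iff₀ hε] at hi hN
  rcases hm t with h1 | h1
  · have := le_abs_self m
    nlinarith
  · have h2 : (0:ℝ) < 2 ^ i := by positivity
    by_contra hc
    push Not at hc
    have h3 : ε * t * 2 ^ i ≤ |x t| * 2 ^ i := by gcongr
    nlinarith

end Pool.Agent.H449Z.ERW
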