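import Pool.Agent.H449Z.ERW.Model

set_option autoImplicit false

open MeasureTheory ProbabilityTheory Filter Topology
open scoped ENNReal unitInterval

namespace Pool.Agent.H449Z.ERW

lemma zip_preserving {A B : Type} [MeasurableSpace A] [MeasurableSpace B] (μ : Measure A)
    (ν : Measure B) [IsProbabilityMeasure μ] [IsProbabilityMeasure ν] :
    MeasurePreserving (fun (w : (ℤ → A) × (ℤ → B)) (x : ℤ) => (w.1 x, w.2 x))
      ((Measure.infinitePi (fun _ : ℤ => μ)).prod (Measure.infinitePi (fun _ : ℤ => ν)))
      (Measure.infinitePi (fun _ : ℤ => μ.prod ν)) := by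
  refine ⟨by fun_prop, ?_⟩
  apply Measure.eq_infinitePi
  intro s t ht
  have a1 : MeasurePreserving (s.restrict (π := fun _ => A)) (Measure.infinitePi (fun _ : ℤ => μ))
      (Measure.pi (fun _ : s => μ)) :=
    ⟨Finset.measurable_restrict s, Measure.infinitePi_map_restrict _⟩
  have a2 : MeasurePreserving (s.restrict (π := fun _ => B)) (Measure.infinitePi (fun _ : ℤ => ν))
      (Measure.pi (fun _ : s => ν)) :=
    ⟨Finset.measurable_restrict s, Measure.infinitePi_map_restrict _⟩
  have a3 := (measurePreserving_arrowProdEquivProdArrow A B s (fun _ => μ) (fun _ => ν)).symm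
  have a4 := a3.comp (a1.prod a2)
  have a5 := a4.measure_preimage (s := Set.univ.pi (fun i : s => t i))
    (MeasurableSet.univ_pi fun i : s => ht i).nullMeasurableSet
  rw [Measure.pi_pi, Finset.prod_coe_sort s (fun i => (μ.prod ν) (t i))] at a5
  rw [Measure.map_apply (by fun_prop) (MeasurableSet.pi s.countable_toSet fun i _ => ht i), ← a5]
  congr 1
  ext w
  simp only [Set.mem_preimage, Set.mem_pi, Finset.mem_coe, Set.mem_univ, true_imp_iff,
    Subtype.forall]
  rfl

abbrev Om := (ℤ → ℕ × Bool) × (ℤ × ℕ → I)

noncomputable def PP (d : ℕ) : Measure (ℤ → ℕ × Bool) := Measure.infinitePi (fun _ : ℤ => nu d)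

noncomputable def QQ : Measure (ℤ × ℕ → I) :=
  Measure.infinitePi (fun _ : ℤ × ℕ => (volume : Measure I))

instance (d : ℕ) : IsProbabilityMeasure (PP d) := by unfold PP; infer_instance
instance : IsProbabilityMeasure QQ := by unfold QQ; infer_instance

noncomputable def Pr (d : ℕ) : Measure Om := (PP d).prod QQ

instance (d : ℕ) : IsProbabilityMeasure (Pr d) := by unfold Pr; infer_instance

noncomputable def ev (d : ℕ) (τ : ℤ → ℕ × Bool) : ℤ → ℕ → ℝ := fun x => stack d (τ x)

noncomputable def arw (d : ℕ) (w : Om) : ℤ → ℕ → Bool :=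
  fun x n => decide ((w.2 (x, n) : ℝ) < ev d w.1 x n)

noncomputable def XX (d : ℕ) (t : ℕ) (w : Om) : ℤ := pos (arw d w) t

lemma stack_meas (d : ℕ) : Measurable (stack d) := Measurable.of_discrete

lemma ev_meas (d : ℕ) : Measurable (ev d) :=
  measurable_pi_lambda _ fun x => (stack_meas d).comp (measurable_pi_apply x)

lemma arw_meas (d : ℕ) : Measurable (arw d) := by
  refine measurable_pi_lambda _ fun x => measurable_pi_lambda _ fun n => ?_
  apply measurable_to_bool
  have : (fun w : Om => arw d w x n) ⁻¹' {true} = {w | (w.2 (x, n) : ℝ) < ev d w.1 x n} := by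
    ext w
    simp [arw]
  rw [this]
  refine measurableSet_lt
    (measurable_subtype_coe.comp ((measurable_pi_apply _).comp measurable_snd)) ?_
  exact (measurable_pi_apply n).comp ((measurable_pi_apply x).comp
    ((ev_meas d).comp measurable_fst))

lemma st_meas (t : ℕ) : Measurable (fun a : ℤ → ℕ → Bool => pos a t) ∧
    ∀ x, Measurable (fun a : ℤ → ℕ → Bool => V a t x) := by
  induction t with
  | zero => exact ⟨measurable_const, fun _ => measurable_const⟩
  | succ t ih =>
    obtain ⟨h1, h2⟩ := ih
    have h3 : Measurable (fun q : (ℤ → ℕ → Bool) × ℤ => V q.1 t q.2) :=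
      measurable_from_prod_countable_left fun x => h2 x
    have h4 : Measurable (fun a : ℤ → ℕ → Bool => V a t (pos a t)) :=
      h3.comp (measurable_id.prodMk h1)
    have h5 : Measurable (fun q : (ℤ → ℕ → Bool) × (ℤ × ℕ) => q.1 q.2.1 q.2.2) :=
      measurable_from_prod_countable_left fun x =>
        (measurable_pi_apply x.2).comp (measurable_pi_apply x.1)
    have h6 : Measurable (fun a : ℤ → ℕ → Bool => a (pos a t) (V a t (pos a t))) :=
      h5.comp (measurable_id.prodMk (h1.prodMk h4))
    constructor
    · simp_rw [pos_succ]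
      exact Measurable.ite (h6 (measurableSet_singleton true)) (h1.add_const 1) (h1.sub_const 1)
    · intro x
      simp_rw [V_succ]
      refine Measurable.ite ?_ ((h2 x).add_const 1) (h2 x)
      exact measurableSet_eq_fun measurable_const h1

lemma XX_meas (d t : ℕ) : Measurable (XX d t) := (st_meas t).1.comp (arw_meas d)

lemma path_iff (a : ℤ → ℕ → Bool) (p : ℕ → ℤ) (hp : p 0 = 0) (n : ℕ) :
    (∀ j, j ≤ n → pos a j = p j) ↔
      ∀ j, j < n → p (j + 1) = if a (p j) (visits p j) then p j + 1 else p j - 1 := by
  have key : ∀ n, (∀ j, j ≤ n → pos a j = p j) →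
      pos a (n + 1) = if a (p n) (visits p n) then p n + 1 else p n - 1 := by
    intro n h
    have h1 : V a n (p n) = visits p n := by
      rw [V_eq]
      unfold visits
      congr 1
      refine Finset.filter_congr fun m hm => ?_
      rw [h m (Finset.mem_range.1 hm).le]
    rw [pos_succ, h n le_rfl, h1]
  induction n with
  | zero =>
    constructor
    · intro _ j hj; omega
    · intro _ j hj
      have : j = 0 := by omega
      rw [this, pos_zero, hp]
  | succ n ih =>
    constructor
    · intro h j hj
      rw [← h (j + 1) (by omega)]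
      exact key j fun m hm => h m (by omega)
    · intro h j hj
      have h1 := ih.2 fun j hj => h j (by omega)
      rcases Nat.lt_or_ge j (n + 1) with h2 | h2
      · exact h1 j (by omega)
      · have : j = n + 1 := by omega
        rw [this, key n h1, h n (by omega)]

lemma kappa_inj (p : ℕ → ℤ) : Function.Injective fun j => (p j, visits p j) := by
  have key : ∀ j j', j < j' → p j = p j' → visits p j < visits p j' := by
    intro j j' h1 h2
    unfold visits
    apply Finset.card_lt_card
    rw [Finset.ssubset_iff_of_subset]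
    · exact ⟨j, by simp [h1, h2], by simp⟩
    · intro m hm
      simp only [Finset.mem_filter, Finset.mem_range] at hm ⊢
      exact ⟨by omega, hm.2.trans h2⟩
  intro j j' h
  obtain ⟨h1, h2⟩ := Prod.ext_iff.1 h
  simp only at h1 h2
  rcases lt_trichotomy j j' with h3 | h3 | h3
  · have := key j j' h3 h1; omega
  · exact h3
  · have := key j' j h3 h1.symm; omega

lemma section_prob (w : ℤ → ℕ → ℝ) (hw : ∀ x n, w x n ∈ Set.Icc (0:ℝ) 1) (p : ℕ → ℤ) (n : ℕ) :
    QQ {U | ∀ j, j < n → p (j + 1) =
      if decide ((U (p j, visits p j) : ℝ) < w (p j) (visits p j)) then p j + 1 else p j - 1} =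
    ∏ j ∈ Finset.range n, ENNReal.ofReal (stepProb w p j) := by
  set D : ℕ → Set I := fun j => {u | p (j + 1) =
    if decide ((u:ℝ) < w (p j) (visits p j)) then p j + 1 else p j - 1} with hD
  have hlt : ∀ c : ℝ, MeasurableSet {u : I | (u:ℝ) < c} := fun c =>
    measurableSet_lt measurable_subtype_coe measurable_const
  have hDv : ∀ j, MeasurableSet (D j) ∧
      (volume : Measure I) (D j) = ENNReal.ofReal (stepProb w p j) := by
    intro j
    obtain ⟨b1, b2⟩ := hw (p j) (visits p j)
    unfold stepProb
    by_cases h1 : p (j + 1) = p j + 1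
    · have : D j = {u : I | (u:ℝ) < w (p j) (visits p j)} := by
        ext u
        simp only [hD, Set.mem_ofPred_eq, h1, decide_eq_true_eq]
        split_ifs with h
        · simp [h]
        · simp only [h, iff_false]; omega
      rw [this, if_pos h1]
      exact ⟨hlt _, vol_lt _ b1 b2⟩
    · by_cases h2 : p (j + 1) = p j - 1
      · have : D j = {u : I | (u:ℝ) < w (p j) (visits p j)}ᶜ := by
          ext u
          simp only [hD, Set.mem_ofPred_eq, h2, decide_eq_true_eq, Set.mem_compl_iff]
          split_ifs with h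
          · simp only [h, not_true, iff_false]; omega
          · simp [h]
        rw [this, if_neg h1, if_pos h2]
        refine ⟨(hlt _).compl, ?_⟩
        rw [prob_compl_eq_one_sub (hlt _), vol_lt _ b1 b2, ENNReal.ofReal_sub _ b1]
        simp
      · have : D j = ∅ := by
          ext u
          simp only [hD, Set.mem_ofPred_eq, Set.mem_empty_iff_false, iff_false]
          split_ifs
          · exact h1
          · exact h2
        rw [this, if_neg h1, if_neg h2]
        simp
  have a1 : MeasurePreserving (fun (U : ℤ × ℕ → I) (j : ℕ) => U (p j, visits p j)) QQ coin :=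
    ⟨by fun_prop, Measure.map_infinitePi_infinitePi_of_inj (kappa_inj p)⟩
  have a2 := a1.measure_preimage (s := Set.pi (Finset.range n) D)
    (MeasurableSet.pi (Finset.countable_toSet _) fun j _ => (hDv j).1).nullMeasurableSet
  unfold coin at a2
  rw [Measure.infinitePi_pi _ (fun j _ => (hDv j).1)] at a2
  rw [← Finset.prod_congr rfl fun j _ => (hDv j).2, ← a2]
  congr 1
  ext U
  simp [hD]

lemma isERW (d : ℕ) : IsERW (Pr d) (fun w => ev d w.1) (XX d) := by
  intro n p A hA
  by_cases hp : p 0 = 0
  · rw [if_pos hp]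
    have hA' : MeasurableSet {τ : ℤ → ℕ × Bool | ev d τ ∈ A} := ev_meas d hA
    have hA2 : MeasurableSet {w : Om | ev d w.1 ∈ A} := measurable_fst hA'
    have hE : MeasurableSet {w : Om | ev d w.1 ∈ A ∧ ∀ j, j ≤ n → XX d j w = p j} := by
      refine hA2.inter ?_
      have : {w : Om | ∀ j, j ≤ n → XX d j w = p j} =
          ⋂ j ∈ Finset.range (n + 1), {w : Om | XX d j w = p j} := by
        ext w
        simp
      change MeasurableSet {w : Om | ∀ j, j ≤ n → XX d j w = p j}
      rw [this]
      exact Finset.measurableSet_biInter _ fun j _ =>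
        measurableSet_eq_fun (XX_meas d j) measurable_const
    set f : (ℤ → ℕ × Bool) → ℝ≥0∞ :=
      fun τ => ∏ j ∈ Finset.range n, ENNReal.ofReal (stepProb (ev d τ) p j) with hf
    have hfm : Measurable f := by
      refine Finset.measurable_prod _ fun j _ => ENNReal.measurable_ofReal.comp ?_
      have b1 : Measurable fun τ => ev d τ (p j) (visits p j) :=
        (measurable_pi_apply _).comp ((measurable_pi_apply _).comp (ev_meas d))
      unfold stepProb
      split_ifs
      · exact b1
      · exact measurable_const.sub b1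
      · exact measurable_const
    have h1 : ∫⁻ w in {w : Om | ev d w.1 ∈ A}, f w.1 ∂(Pr d) =
        ∫⁻ τ, {τ : ℤ → ℕ × Bool | ev d τ ∈ A}.indicator f τ ∂(PP d) := by
      rw [← lintegral_indicator hA2, ← (measurePreserving_fst (μ := PP d) (ν := QQ)).lintegral_comp
        (hfm.indicator hA')]
      rfl
    refine Eq.trans ?_ h1.symm
    unfold Pr
    rw [Measure.prod_apply hE]
    refine lintegral_congr fun τ => ?_
    by_cases hτ : ev d τ ∈ A
    · rw [Set.indicator_of_mem (by exact hτ), hf]
      simp only
      rw [← section_prob (ev d τ) (fun x m => stack_mem d _ m) p n]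
      congr 1
      ext U
      simp only [Set.mem_preimage, Set.mem_ofPred_eq, hτ, true_and]
      exact path_iff (arw d (τ, U)) p hp n
    · rw [Set.indicator_of_notMem (by exact hτ)]
      have : Prod.mk τ ⁻¹' {w : Om | ev d w.1 ∈ A ∧ ∀ j, j ≤ n → XX d j w = p j} = ∅ := by
        ext U
        simp [hτ]
      rw [this, measure_empty]
  · rw [if_neg hp]
    have : {w : Om | ev d w.1 ∈ A ∧ ∀ j, j ≤ n → XX d j w = p j} = ∅ := by
      ext w
      simp only [Set.mem_ofPred_eq, Set.mem_empty_iff_false, iff_false, not_and]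
      intro _ h
      exact hp (h 0 (Nat.zero_le _)).symm
    rw [this, measure_empty]

lemma type_preserving (d : ℕ) (x : ℤ) : MeasurePreserving (fun w : Om => w.1 x) (Pr d) (nu d) :=
  (measurePreserving_eval_infinitePi (fun _ : ℤ => nu d) x).comp
    (measurePreserving_fst (μ := PP d) (ν := QQ))

theorem main (d : ℕ) : ∃ (Ω : Type) (_ : MeasurableSpace Ω) (μ : Measure Ω)
    (_ : IsProbabilityMeasure μ) (env : Ω → ℤ → ℕ → ℝ) (X : ℕ → Ω → ℤ),
    Measurable env ∧ (∀ n, Measurable (X n)) ∧ (∀ w x n, env w x n ∈ Set.Icc (0:ℝ) 1) ∧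
    IsERW μ env X ∧
    iIndepFun (fun (x : ℤ) (w : Ω) => env w x) μ ∧
    (∀ x : ℤ, IdentDistrib (fun w => env w x) (fun w => env w 0) μ μ) ∧
    (∀ x : ℤ, 0 < μ {w | ∀ n, 0 < env w x n} ∧ 0 < μ {w | ∀ n, env w x n < 1}) ∧
    (∫⁻ w, ∑' n, ENNReal.ofReal |2 * env w 0 n - 1| ∂μ < ⊤) ∧
    (∫ w, ∑' n, (2 * env w 0 n - 1) ∂μ = d) ∧
    ∀ᵐ w ∂μ, Tendsto (fun n : ℕ => (X n w : ℝ) / n) atTop (𝓝 0) := by
  refine ⟨Om, inferInstance, Pr d, inferInstance, fun w => ev d w.1, XX d,
    (ev_meas d).comp measurable_fst, XX_meas d, fun w x n => stack_mem d _ n, isERW d,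
    ?_, ?_, ?_, ?_, ?_, ?_⟩
  · refine (iIndepFun_iff_map_fun_eq_infinitePi_map (P := Pr d)
      (X := fun (x : ℤ) (w : Om) => ev d w.1 x)
      (fun x => (stack_meas d).comp (type_preserving d x).measurable)).2 ?_
    have a1 : (Pr d).map (fun w : Om => ev d w.1) = (PP d).map (ev d) := by
      rw [← (measurePreserving_fst (μ := PP d) (ν := QQ)).map_eq,
        Measure.map_map (ev_meas d) measurable_fst]
      rfl
    refine a1.trans ?_
    refine (Measure.infinitePi_map_pi (fun _ : ℤ => nu d) (f := fun _ => stack d)
      (fun _ => stack_meas d)).trans ?_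
    congr 1
    funext x
    rw [← (type_preserving d x).map_eq,
      Measure.map_map (stack_meas d) (type_preserving d x).measurable]
    rfl
  · intro x
    have a1 : IdentDistrib (fun w : Om => w.1 x) (fun w : Om => w.1 0) (Pr d) (Pr d) :=
      ⟨(type_preserving d x).measurable.aemeasurable, (type_preserving d 0).measurable.aemeasurable,
        by rw [(type_preserving d x).map_eq, (type_preserving d 0).map_eq]⟩
    exact a1.comp (stack_meas d)
  · intro x
    have a1 : ∀ b : Bool, 0 < Pr d ((fun w : Om => w.1 x) ⁻¹' {j | j.2 = b}) := by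
      intro b
      rw [(type_preserving d x).measure_preimage MeasurableSet.of_discrete.nullMeasurableSet, nu_snd]
      simp
    constructor
    · refine lt_of_lt_of_le (a1 true) (measure_mono fun w hw n => ?_)
      have h : (w.1 x).2 = true := hw
      change 0 < stack d (w.1 x) n
      unfold stack
      rw [h]
      split_ifs <;> norm_num at *
    · refine lt_of_lt_of_le (a1 false) (measure_mono fun w hw n => ?_)
      have h : (w.1 x).2 = false := hw
      change stack d (w.1 x) n < 1
      unfold stack
      rw [h]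
      split_ifs <;> norm_num at *
  · have a1 := (type_preserving d 0).lintegral_comp
      (f := fun j => (len d j : ℝ≥0∞)) Measurable.of_discrete
    rw [lint_len] at a1
    have a2 : ∀ w : Om, ∑' n, ENNReal.ofReal |2 * ev d w.1 0 n - 1| = len d (w.1 0) :=
      fun w => tsum_abs d _
    simp_rw [a2]
    rw [a1]
    simp
  · rw [← int_drift d, ← (type_preserving d 0).map_eq,
      integral_map (type_preserving d 0).measurable.aemeasurable
        (Measurable.of_discrete).aestronglyMeasurable]
    rfl
  · have a1 : MeasurePreserving (MeasurableEquiv.curry ℤ ℕ I) QQ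
        (Measure.infinitePi (fun _ : ℤ => coin)) :=
      ⟨MeasurableEquiv.measurable _, Measure.infinitePi_map_curry (fun _ _ => volume)⟩
    have a2 := (zip_preserving (nu d) coin).comp ((MeasurePreserving.id (PP d)).prod a1)
    exact a2.quasiMeasurePreserving.ae (speed_zero d)

end Pool.Agent.H449Z.ERW
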