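import Pool.Agent.H449Z.ERW.Blocks

set_option autoImplicit false

open MeasureTheory ProbabilityTheory Filter Topology
open scoped ENNReal unitInterval

namespace Pool.Agent.H449Z.ERW

def JJ (i : ℕ) : ℕ := 4 ^ i
def gg (d i : ℕ) : ℕ := 32 * JJ i ^ 3 * (1 + d)
def hh (d i : ℕ) : ℕ := 4 * gg d i
def KK (d i : ℕ) : ℕ := 2 * JJ i * hh d i
def Kf (d : ℕ) : ℕ → ℕ
  | 0 => 0
  | i + 1 => KK d i
noncomputable def AA (d i : ℕ) : ℝ≥0∞ := (2⁻¹) ^ (i + 1) / KK d i
noncomputable def vv (d : ℕ) : ℕ → ℝ≥0∞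
  | 0 => 1 - ∑' i, AA d i
  | i + 1 => AA d i
noncomputable def nu1 (d : ℕ) : Measure ℕ := Measure.sum fun k => vv d k • Measure.dirac k
noncomputable def nuB : Measure Bool := (2⁻¹ : ℝ≥0∞) • Measure.count
noncomputable def nu (d : ℕ) : Measure (ℕ × Bool) := (nu1 d).prod nuB
def len (d : ℕ) (j : ℕ × Bool) : ℕ := if j.2 then Kf d j.1 + 2 * d else Kf d j.1
noncomputable def stack (d : ℕ) (j : ℕ × Bool) (n : ℕ) : ℝ :=
  if n < len d j then (if j.2 then 1 else 0) else 1 / 2

lemma JJ_pos (i : ℕ) : 0 < JJ i := by unfold JJ; positivity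
lemma gg_pos (d i : ℕ) : 0 < gg d i := by
  unfold gg
  have := JJ_pos i
  positivity
lemma KK_pos (d i : ℕ) : 0 < KK d i := by
  unfold KK hh
  have := JJ_pos i
  have := gg_pos d i
  positivity

lemma lint_nu1 (d : ℕ) (f : ℕ → ℝ≥0∞) : ∫⁻ k, f k ∂(nu1 d) = ∑' k, vv d k * f k := by
  unfold nu1
  rw [lintegral_sum_measure]
  simp

lemma geo : ∑' i : ℕ, (2⁻¹ : ℝ≥0∞) ^ (i + 1) = 1 := by
  rw [ENNReal.tsum_geometric_add_one, ENNReal.one_sub_inv_two, inv_inv]
  exact ENNReal.inv_mul_cancel (by norm_num) (by norm_num)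

lemma AA_mul (d i : ℕ) : AA d i * KK d i = (2⁻¹) ^ (i + 1) := by
  unfold AA
  apply ENNReal.div_mul_cancel
  · exact_mod_cast (KK_pos d i).ne'
  · simp

lemma sum_AA (d : ℕ) : ∑' i, AA d i ≤ 1 := by
  rw [← geo]
  refine ENNReal.tsum_le_tsum fun i => ?_
  rw [← AA_mul d i]
  have : (1:ℝ≥0∞) ≤ KK d i := by exact_mod_cast KK_pos d i
  calc AA d i = AA d i * 1 := (mul_one _).symm
    _ ≤ _ := by gcongr

instance (d : ℕ) : IsProbabilityMeasure (nu1 d) := by
  constructor
  rw [← lintegral_one, lint_nu1, tsum_eq_zero_add' ENNReal.summable]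
  simp only [mul_one, vv]
  exact tsub_add_cancel_of_le (sum_AA d)

instance : IsProbabilityMeasure nuB := by
  constructor
  unfold nuB
  rw [Measure.smul_apply, Measure.count_univ, smul_eq_mul]
  simp only [ENat.card_eq_coe_fintype_card, Fintype.card_bool, Nat.cast_ofNat, ENat.toENNReal_ofNat]
  exact ENNReal.inv_mul_cancel (by norm_num) (by norm_num)

instance (d : ℕ) : IsProbabilityMeasure (nu d) := by unfold nu; infer_instance

lemma lint_Kf (d : ℕ) : ∫⁻ k, (Kf d k : ℝ≥0∞) ∂(nu1 d) = 1 := by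
  rw [lint_nu1, tsum_eq_zero_add' ENNReal.summable]
  simp only [vv, Kf, AA_mul, geo]
  simp

lemma lint_len (d : ℕ) : ∫⁻ j, (len d j : ℝ≥0∞) ∂(nu d) = 1 + d := by
  unfold nu
  rw [lintegral_prod _ (Measurable.of_discrete).aemeasurable]
  have h1 : ∀ k, ∫⁻ b, (len d (k, b) : ℝ≥0∞) ∂nuB = Kf d k + d := by
    intro k
    unfold nuB
    rw [lintegral_smul_measure, lintegral_count, tsum_fintype, Fintype.sum_bool]
    simp only [len, if_true, Bool.false_eq_true, if_false, smul_eq_mul]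
    push_cast
    have : (Kf d k : ℝ≥0∞) + 2 * d + Kf d k = 2 * (Kf d k + d) := by ring
    rw [this, ← mul_assoc, ENNReal.inv_mul_cancel (by norm_num) (by norm_num), one_mul]
  simp_rw [h1]
  rw [lintegral_add_right _ measurable_const, lint_Kf]
  simp

lemma nu_single (d i : ℕ) (b : Bool) : nu d {(i + 1, b)} = AA d i * 2⁻¹ := by
  unfold nu
  rw [← Set.singleton_prod_singleton, Measure.prod_prod]
  congr 1
  · rw [← lintegral_indicator_one (measurableSet_singleton _), lint_nu1, tsum_eq_single (i + 1)]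
    · simp [vv]
    · intro k hk
      rw [Set.indicator_of_notMem (by simpa using hk), mul_zero]
  · unfold nuB
    simp

lemma nu_snd (d : ℕ) (b : Bool) : nu d {j | j.2 = b} = 2⁻¹ := by
  have : {j : ℕ × Bool | j.2 = b} = Set.univ ×ˢ {b} := by
    ext j; simp
  unfold nu
  rw [this, Measure.prod_prod]
  unfold nuB
  simp

lemma stack_mem (d : ℕ) (j : ℕ × Bool) (n : ℕ) : stack d j n ∈ Set.Icc (0:ℝ) 1 := by
  unfold stack
  split_ifs <;> norm_num

lemma tsum_abs (d : ℕ) (j : ℕ × Bool) :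
    ∑' n, ENNReal.ofReal |2 * stack d j n - 1| = len d j := by
  rw [tsum_eq_sum (s := Finset.range (len d j))]
  · rw [Finset.sum_congr rfl (g := fun _ => 1)]
    · simp
    · intro n hn
      unfold stack
      rw [if_pos (Finset.mem_range.1 hn)]
      split_ifs <;> norm_num
  · intro n hn
    unfold stack
    rw [if_neg (by simpa using hn)]
    norm_num

lemma tsum_drift (d : ℕ) (j : ℕ × Bool) :
    ∑' n, (2 * stack d j n - 1) = if j.2 then (len d j : ℝ) else -(len d j : ℝ) := by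
  rw [tsum_eq_sum (s := Finset.range (len d j))]
  · rw [Finset.sum_congr rfl (g := fun _ => if j.2 then (1:ℝ) else -1)]
    · split_ifs <;> simp
    · intro n hn
      unfold stack
      rw [if_pos (Finset.mem_range.1 hn)]
      split_ifs <;> norm_num
  · intro n hn
    unfold stack
    rw [if_neg (by simpa using hn)]
    norm_num

lemma int_drift (d : ℕ) : ∫ j, ∑' n, (2 * stack d j n - 1) ∂(nu d) = d := by
  simp_rw [tsum_drift]
  have hint : Integrable (fun j : ℕ × Bool => if j.2 then (len d j : ℝ) else -(len d j : ℝ))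
      (nu d) := by
    refine ⟨(Measurable.of_discrete).aestronglyMeasurable, ?_⟩
    unfold HasFiniteIntegral
    have : ∀ j : ℕ × Bool, ‖if j.2 then (len d j : ℝ) else -(len d j : ℝ)‖ₑ = len d j := by
      intro j
      split_ifs <;> simp
    simp_rw [this]
    rw [lint_len]
    simp
  unfold nu at hint ⊢
  rw [integral_prod _ hint]
  have h1 : ∀ k, ∫ b, (if b then (len d (k, b) : ℝ) else -(len d (k, b) : ℝ)) ∂nuB = d := by
    intro k
    unfold nuB
    rw [integral_smul_measure, integral_count, Fintype.sum_bool]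
    simp only [len, if_true, Bool.false_eq_true, if_false, smul_eq_mul]
    push_cast
    simp
  simp_rw [h1]
  simp

abbrev Site := (ℕ × Bool) × (ℕ → I)

noncomputable def eta (d : ℕ) : Measure Site := (nu d).prod coin

instance (d : ℕ) : IsProbabilityMeasure (eta d) := by unfold eta; infer_instance

noncomputable def arr (d : ℕ) (s : Site) (n : ℕ) : Bool := decide ((s.2 n : ℝ) < stack d s.1 n)

def G2 (d i : ℕ) : Set (ℕ → I) := {U | ∀ l ∈ Finset.Ico (JJ i) (2 * JJ i),
  |cnt ((2 * l + 1) * hh d i) U - (((2 * l + 1) * hh d i : ℕ) : ℝ) / 2| < gg d i}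

def GG (d i : ℕ) : Set Site := {j | len d j ≤ gg d i} ×ˢ G2 d i

def TL (i : ℕ) : Set Site := {(i + 1, false)} ×ˢ Set.univ

def TR (i : ℕ) : Set Site := {(i + 1, true)} ×ˢ {U | ∀ n, (U n : ℝ) < 1}

lemma G2_compl (d i : ℕ) : (G2 d i)ᶜ = ⋃ l ∈ Finset.Ico (JJ i) (2 * JJ i),
    {U | (gg d i : ℝ) ≤
      |cnt ((2 * l + 1) * hh d i) U - (((2 * l + 1) * hh d i : ℕ) : ℝ) / 2|} := by
  ext U
  simp [G2, and_assoc]

lemma G2_meas (d i : ℕ) : MeasurableSet (G2 d i) := by
  rw [← MeasurableSet.compl_iff, G2_compl]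
  refine Finset.measurableSet_biUnion _ fun l _ => ?_
  exact measurableSet_le measurable_const ((cnt_meas _).sub_const _).abs

lemma GG_meas (d i : ℕ) : MeasurableSet (GG d i) :=
  (MeasurableSet.of_discrete).prod (G2_meas d i)

lemma TL_meas (i : ℕ) : MeasurableSet (TL i) :=
  (measurableSet_singleton _).prod MeasurableSet.univ

lemma lt_one_meas : MeasurableSet {U : ℕ → I | ∀ n, (U n : ℝ) < 1} := by
  rw [Set.ofPred_forall]
  exact MeasurableSet.iInter fun n =>
    measurableSet_lt (measurable_subtype_coe.comp (measurable_pi_apply n)) measurable_const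

lemma TR_meas (i : ℕ) : MeasurableSet (TR i) := (measurableSet_singleton _).prod lt_one_meas

lemma gg_lt (d i : ℕ) : gg d i < KK d i := by
  unfold KK hh
  have := JJ_pos i
  have := gg_pos d i
  nlinarith

lemma TL_disj (d i : ℕ) : Disjoint (TL i) (GG d i) := by
  rw [Set.disjoint_left]
  rintro ⟨j, U⟩ ⟨h1, -⟩ ⟨h2, -⟩
  have h3 : j = (i + 1, false) := h1
  have h4 : len d j ≤ gg d i := h2
  rw [h3] at h4
  have := gg_lt d i
  simp [len, Kf] at h4
  omega

lemma TR_disj (d i : ℕ) : Disjoint (TR i) (GG d i) := by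
  rw [Set.disjoint_left]
  rintro ⟨j, U⟩ ⟨h1, -⟩ ⟨h2, -⟩
  have h3 : j = (i + 1, true) := h1
  have h4 : len d j ≤ gg d i := h2
  rw [h3] at h4
  have := gg_lt d i
  simp [len, Kf] at h4
  omega

noncomputable def pp (d i : ℕ) : ℝ := (1 / 2) ^ (i + 1) / KK d i / 2

lemma pp_pos (d i : ℕ) : 0 < pp d i := by
  unfold pp
  have : (0:ℝ) < KK d i := by exact_mod_cast KK_pos d i
  positivity

lemma pp_eq (d i : ℕ) : (AA d i * 2⁻¹).toReal = pp d i := by
  unfold AA pp
  simp [ENNReal.toReal_mul, div_eq_mul_inv]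

lemma TL_prob (d i : ℕ) : pp d i ≤ (eta d).real (TL i) := by
  unfold eta TL
  rw [Measure.real, Measure.prod_prod, nu_single, measure_univ, mul_one, pp_eq]

lemma coin_lt_one : coin {U : ℕ → I | ∀ n, (U n : ℝ) < 1} = 1 := by
  rw [← prob_compl_eq_zero_iff lt_one_meas]
  have : ∀ᵐ U ∂coin, ∀ n, (U n : ℝ) < 1 := by
    rw [ae_all_iff]
    intro n
    have a1 := (measurePreserving_eval_infinitePi (fun _ : ℕ => (volume : Measure I)) n)
    have a2 : ∀ᵐ (u : I) ∂(volume : Measure I), (u:ℝ) < 1 := by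
      have hm : MeasurableSet {u : I | (u:ℝ) < 1} :=
        measurableSet_lt measurable_subtype_coe measurable_const
      have := (prob_compl_eq_zero_iff (μ := (volume : Measure I)) hm).2 (by
        rw [vol_lt 1 zero_le_one le_rfl]; simp)
      exact this
    exact a1.quasiMeasurePreserving.ae a2
  exact this

lemma TR_prob (d i : ℕ) : pp d i ≤ (eta d).real (TR i) := by
  unfold eta TR
  rw [Measure.real, Measure.prod_prod, nu_single, coin_lt_one, mul_one, pp_eq]

lemma GG_prob (d i : ℕ) : 1 - 1 / (4 * (JJ i : ℝ)) ≤ (eta d).real (GG d i) := by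
  have hJ : (1:ℝ) ≤ JJ i := by exact_mod_cast JJ_pos i
  have hg : (gg d i : ℝ) = 32 * (JJ i : ℝ) ^ 3 * (1 + d) := by unfold gg; push_cast; ring
  have hg0 : (0:ℝ) < gg d i := by exact_mod_cast gg_pos d i
  have hd0 : (0:ℝ) ≤ d := by positivity
  have hJ3 : (JJ i : ℝ) ≤ (JJ i : ℝ) ^ 3 := by
    calc (JJ i : ℝ) = (JJ i : ℝ) ^ 1 := (pow_one _).symm
      _ ≤ _ := pow_le_pow_right₀ hJ (by norm_num)
  have h1 : 1 - 1 / (8 * (JJ i : ℝ)) ≤ (nu d).real {j | len d j ≤ gg d i} := by
    have a1 := meas_ge_le_lintegral_div (μ := nu d) (f := fun j => (len d j : ℝ≥0∞))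
      (Measurable.of_discrete).aemeasurable (ε := gg d i)
      (by exact_mod_cast (gg_pos d i).ne') (by simp)
    rw [lint_len] at a1
    have a2 : (nu d).real {j | len d j ≤ gg d i}ᶜ ≤ (1 + d) / gg d i := by
      have b1 : {j | len d j ≤ gg d i}ᶜ ⊆ {j | (gg d i : ℝ≥0∞) ≤ len d j} := by
        intro j hj
        simp only [Set.mem_compl_iff, Set.mem_ofPred_eq, not_le] at hj
        exact_mod_cast hj.le
      have b2 := (measure_mono b1).trans a1
      have b3 : ((1 + d : ℝ≥0∞) / gg d i) ≠ ⊤ :=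
        ENNReal.div_ne_top (by simp) (by exact_mod_cast (gg_pos d i).ne')
      refine (ENNReal.toReal_mono b3 b2).trans ?_
      rw [ENNReal.toReal_div, ENNReal.toReal_add (by simp) (by simp)]
      simp
    rw [probReal_compl_eq_one_sub MeasurableSet.of_discrete] at a2
    have a3 : (1 + (d:ℝ)) / gg d i ≤ 1 / (8 * (JJ i : ℝ)) := by
      rw [div_le_div_iff₀ hg0 (by positivity), hg]
      nlinarith
    linarith
  have h2 : 1 - 1 / (8 * (JJ i : ℝ)) ≤ coin.real (G2 d i) := by
    have a1 : coin.real (G2 d i)ᶜ ≤ 1 / (8 * (JJ i : ℝ)) := by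
      rw [G2_compl]
      refine (measureReal_biUnion_finset_le _ _).trans ?_
      have b1 : ∀ l ∈ Finset.Ico (JJ i) (2 * JJ i), coin.real {U | (gg d i : ℝ) ≤
          |cnt ((2 * l + 1) * hh d i) U - (((2 * l + 1) * hh d i : ℕ) : ℝ) / 2|} ≤
          4 * (JJ i : ℝ) / gg d i := by
        intro l hl
        refine (cheb _ _ hg0).trans ?_
        have c1 : 2 * l + 1 ≤ 4 * JJ i := by
          have := (Finset.mem_Ico.1 hl).2
          omega
        have c2 : ((2 * l + 1 : ℕ) : ℝ) ≤ 4 * JJ i := by exact_mod_cast c1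
        have c3 : (((2 * l + 1) * hh d i : ℕ) : ℝ) = ((2 * l + 1 : ℕ) : ℝ) * (4 * gg d i) := by
          unfold hh; push_cast; ring
        rw [c3]
        calc ((2 * l + 1 : ℕ) : ℝ) * (4 * gg d i) / (4 * (gg d i : ℝ) ^ 2)
            ≤ (4 * JJ i) * (4 * gg d i) / (4 * (gg d i : ℝ) ^ 2) := by gcongr
          _ = _ := by field_simp
      have b2 := Finset.sum_le_card_nsmul _ _ _ b1
      rw [Nat.card_Ico, show 2 * JJ i - JJ i = JJ i by omega, nsmul_eq_mul] at b2
      refine b2.trans ?_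
      rw [← mul_div_assoc, div_le_div_iff₀ hg0 (by positivity), hg]
      have : (0:ℝ) ≤ (JJ i : ℝ) ^ 3 * d := by positivity
      nlinarith
    rw [probReal_compl_eq_one_sub (G2_meas d i)] at a1
    linarith
  have h3 : (eta d).real (GG d i) =
      (nu d).real {j | len d j ≤ gg d i} * coin.real (G2 d i) := by
    unfold eta GG
    rw [Measure.real, Measure.prod_prod, ENNReal.toReal_mul]
    rfl
  rw [h3]
  have h4 : (0:ℝ) ≤ 1 - 1 / (8 * (JJ i : ℝ)) := by
    rw [sub_nonneg, div_le_one (by positivity)]; linarith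
  have h5 := mul_le_mul h1 h2 h4 measureReal_nonneg
  have h6 : 1 / (4 * (JJ i : ℝ)) = 2 * (1 / (8 * (JJ i : ℝ))) := by field_simp; norm_num
  nlinarith [sq_nonneg (1 / (8 * (JJ i : ℝ)))]

lemma sum_lt_le (m c : ℕ) : ∑ n ∈ Finset.range m, (if n < c then (1:ℝ) else 0) ≤ c := by
  rw [Finset.sum_boole]
  have : ((Finset.range m).filter (fun n => n < c)).card ≤ (Finset.range c).card := by
    apply Finset.card_le_card
    intro n hn
    exact Finset.mem_range.2 (Finset.mem_filter.1 hn).2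
  rw [Finset.card_range] at this
  exact_mod_cast this

lemma good_of_GG (d i : ℕ) (s : Site) (hs : s ∈ GG d i) :
    Good (JJ i) (hh d i) (arr d s) ∧ Good (JJ i) (hh d i) (fun n => !(arr d s n)) := by
  obtain ⟨h1, h2⟩ := hs
  have h3 : (len d s.1 : ℝ) ≤ gg d i := by exact_mod_cast (show len d s.1 ≤ gg d i from h1)
  have hh4 : (hh d i : ℝ) = 4 * gg d i := by unfold hh; push_cast; ring
  constructor
  · intro l a1 a2
    have b1 := abs_lt.1 (h2 l (Finset.mem_Ico.2 ⟨a1, a2⟩))
    have b2 : (R (arr d s) ((2 * l + 1) * hh d i) : ℝ) ≤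
        len d s.1 + cnt ((2 * l + 1) * hh d i) s.2 := by
      refine le_trans ?_ (add_le_add_left (sum_lt_le ((2 * l + 1) * hh d i) (len d s.1)) _)
      unfold R cnt
      rw [← Finset.sum_add_distrib]
      push_cast
      refine Finset.sum_le_sum fun n _ => ?_
      have c1 := hd_bd (s.2 n)
      by_cases c2 : n < len d s.1
      · rw [if_pos c2]
        split_ifs <;> linarith [c1.1]
      · rw [if_neg c2, zero_add]
        unfold arr stack hd
        rw [if_neg c2]
        simp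
    have b3 : (R (arr d s) ((2 * l + 1) * hh d i) : ℝ) ≤ (((l + 1) * hh d i : ℕ) : ℝ) := by
      push_cast at b1 ⊢
      rw [hh4] at b1 ⊢
      linarith [b1.2]
    exact_mod_cast b3
  · intro l a1 a2
    have b1 := abs_lt.1 (h2 l (Finset.mem_Ico.2 ⟨a1, a2⟩))
    have b2 : (R (fun n => !(arr d s n)) ((2 * l + 1) * hh d i) : ℝ) + cnt ((2 * l + 1) * hh d i) s.2
        ≤ len d s.1 + (((2 * l + 1) * hh d i : ℕ) : ℝ) := by
      refine le_trans ?_ (add_le_add_left (sum_lt_le ((2 * l + 1) * hh d i) (len d s.1)) _)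
      have e : (((2 * l + 1) * hh d i : ℕ) : ℝ) =
          ∑ n ∈ Finset.range ((2 * l + 1) * hh d i), (1:ℝ) := by simp
      rw [e]
      unfold R cnt
      push_cast
      rw [← Finset.sum_add_distrib, ← Finset.sum_add_distrib]
      refine Finset.sum_le_sum fun n _ => ?_
      have c1 := hd_bd (s.2 n)
      by_cases c2 : n < len d s.1
      · rw [if_pos c2]
        split_ifs <;> linarith [c1.2]
      · rw [if_neg c2, zero_add]
        unfold arr stack hd
        rw [if_neg c2]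
        by_cases c3 : (s.2 n : ℝ) < 1 / 2
        · simp only [c3, decide_true, Bool.not_true, Bool.false_eq_true, if_false, if_true]
          norm_num
        · simp only [c3, decide_false, Bool.not_false, if_true, if_false]
          norm_num
    have b3 : (R (fun n => !(arr d s n)) ((2 * l + 1) * hh d i) : ℝ) ≤
        (((l + 1) * hh d i : ℕ) : ℝ) := by
      push_cast at b1 b2 ⊢
      rw [hh4] at b1 b2 ⊢
      linarith [b1.1]
    exact_mod_cast b3

lemma trap_TL (d i : ℕ) (s : Site) (hs : s ∈ TL i) :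
    Trap (2 * JJ i * hh d i) (arr d s) := by
  intro n hn
  have h1 : s.1 = (i + 1, false) := hs.1
  unfold arr stack
  rw [h1, if_pos (by simpa [len, Kf, KK] using hn)]
  simpa using (s.2 n).2.1

lemma trap_TR (d i : ℕ) (s : Site) (hs : s ∈ TR i) :
    Trap (2 * JJ i * hh d i) (fun n => !(arr d s n)) := by
  intro n hn
  have h1 : s.1 = (i + 1, true) := hs.1
  have h2 : (s.2 n : ℝ) < 1 := hs.2 n
  have h3 : n < len d (i + 1, true) := by
    simp only [len, Kf, KK, if_true]
    omega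
  change (!(arr d s n)) = false
  unfold arr stack
  rw [h1, if_pos h3]
  simpa using h2

lemma const_eq (d i : ℕ) : (JJ i : ℝ) * hh d i * (JJ i * pp d i / 4) = 2 ^ i / 32 := by
  have hK : (KK d i : ℝ) = 2 * JJ i * hh d i := by unfold KK; push_cast; ring
  have hK0 : (0:ℝ) < KK d i := by exact_mod_cast KK_pos d i
  have hJ : (JJ i : ℝ) = 2 ^ i * 2 ^ i := by
    unfold JJ; push_cast; rw [← mul_pow]; norm_num
  have e : (JJ i : ℝ) * hh d i * (JJ i * pp d i / 4) = JJ i * (KK d i * pp d i) / 8 := by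
    rw [hK]; ring
  rw [e]
  unfold pp
  rw [hJ, one_div, inv_pow, pow_succ]
  field_simp
  norm_num

theorem speed_zero (d : ℕ) : ∀ᵐ ξ ∂(Measure.infinitePi (fun _ : ℤ => eta d)),
    Tendsto (fun t : ℕ => (pos (fun x n => arr d (ξ x) n) t : ℝ) / t) atTop (𝓝 0) := by
  classical
  have h1 := fun i => blocks_lln (eta d) (TL_meas i) (GG_meas d i) (TL_disj d i) (JJ i) (JJ_pos i)
    (pp d i) (pp_pos d i) (TL_prob d i) (GG_prob d i) (fun k => (k:ℤ))
    (fun _ _ h => by simpa using h)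
  have h2 := fun i => blocks_lln (eta d) (TR_meas i) (GG_meas d i) (TR_disj d i) (JJ i) (JJ_pos i)
    (pp d i) (pp_pos d i) (TR_prob d i) (GG_prob d i) (fun k => -(k:ℤ))
    (fun _ _ h => by simpa using h)
  filter_upwards [ae_all_iff.2 h1, ae_all_iff.2 h2] with ξ a1 a2
  apply tendsto_of_bounds
  intro i
  obtain ⟨B1, hB1⟩ := a1 i
  obtain ⟨B2, hB2⟩ := a2 i
  set a : ℤ → ℕ → Bool := fun x n => arr d (ξ x) n with ha
  have hc : (0:ℝ) ≤ JJ i * pp d i / 4 := by
    have := pp_pos d i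
    positivity
  have c1 := pos_bound a (JJ i) (hh d i) B1 (JJ_pos i) _ hc (fun B hB => by
    refine (hB1 B hB).trans ?_
    norm_cast
    apply Finset.card_le_card
    intro b hb
    obtain ⟨e1, j, e2, e3, e4, e5⟩ := Finset.mem_filter.1 hb
    exact Finset.mem_filter.2 ⟨e1, j, e2, e3, trap_TL d i _ e4,
      fun k f1 f2 => (good_of_GG d i _ (e5 k f1 f2)).1⟩)
  have c2 := pos_bound (refl a) (JJ i) (hh d i) B2 (JJ_pos i) _ hc (fun B hB => by
    refine (hB2 B hB).trans ?_
    norm_cast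
    apply Finset.card_le_card
    intro b hb
    obtain ⟨e1, j, e2, e3, e4, e5⟩ := Finset.mem_filter.1 hb
    exact Finset.mem_filter.2 ⟨e1, j, e2, e3, trap_TR d i _ e4,
      fun k f1 f2 => (good_of_GG d i _ (e5 k f1 f2)).2⟩)
  refine ⟨2 * JJ i * (B1 + 1) + 2 * JJ i * (B2 + 1), fun t => ?_⟩
  have d1 := c1 t
  have d2 := c2 t
  rw [(refl_st a t).1] at d2
  rw [const_eq] at d1 d2
  push_cast at d2
  have p1 : (0:ℝ) ≤ 2 * JJ i * (B1 + 1) := by positivity
  have p2 : (0:ℝ) ≤ 2 * JJ i * (B2 + 1) := by positivity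
  rcases abs_cases (pos a t : ℝ) with ⟨e, -⟩ | ⟨e, -⟩
  · rw [e]
    rcases d1 with d1 | d1
    · left; linarith
    · right; linarith
  · rw [e]
    rcases d2 with d2 | d2
    · left; linarith
    · right; linarith

end Pool.Agent.H449Z.ERW
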